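import Pool.Agent.KAQ.Odd2
import Pool.Agent.KAQ.Double

/-!
# Klein amphichirality and the complexity of an equivariant slice disk, algebraically

The Seifert form of the `(c,1)`-cable of a strongly invertible knot is metabolic (equivariantly)
when the knot bounds an equivariant disk of complexity `c` in a rational homology ball.  We
determine the complexities `c` for which this forces the form to be equivariantly Witt equivalent
to a form with a Klein amphichiral structure: exactly those which are not divisible by four.
-/

namespace Pool.Agent.Results.MP_19ed64_gt.AlgebraicKlein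

open Pool.Agent.KAQ

universe u v

theorem result (c : ℕ) :
    (¬ 4 ∣ c → ∀ (k : Type u) [Field k] (V : Type v) [AddCommGroup V] [Module k V]
      [FiniteDimensional k V] (S : SIForm k V), (S.cable c).Metabolic → S.KleinClass) ∧
    (2 ∣ c → ∀ (k : Type u) [Field k] (V : Type v) [AddCommGroup V] [Module k V]
      [FiniteDimensional k V] (S : SIForm k V), S.KleinClass → (S.cable c).Metabolic) ∧
    (4 ∣ c → ∀ (m : ℕ) (κ : Fin (m + 1) → ℕ), Function.Injective κ →
      ((SIForm.pi fun i => SIForm.formF (κ i)).cable c).Metabolic ∧
      ((SIForm.pi fun i => SIForm.formF (κ i)).cable 2).PlainMetabolic ∧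
      ¬ (SIForm.pi fun i => SIForm.formF (κ i)).KleinClass ∧
      ∀ i, (SIForm.pi fun _ : Fin 2 => SIForm.formF (κ i)).Metabolic) := by
  refine ⟨?_, ?_, ?_⟩
  · intro hc k _ V _ _ _ S h
    exact SIForm.kleinClass_of_cable c hc h
  · intro hc k _ V _ _ _ S h
    exact SIForm.KleinClass.cable_even h c hc
  · intro hc m κ hκ
    exact ⟨SIForm.family_cable _ κ c hc, SIForm.family_plain _ κ, SIForm.family_not_klein m κ hκ,
      fun i => SIForm.double_formF (κ i)⟩

end Pool.Agent.Results.MP_19ed64_gt.AlgebraicKlein
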